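import Pool.Graph.R_pool_sql_team_seeded_64922ed1.X308.Iw.Main
import Mathlib.RingTheory.PowerSeries.Substitution
import Mathlib.RingTheory.PowerSeries.Order

/-!
# Gaps between ideals of the Iwasawa algebra which satisfy a functional equation
-/

set_option autoImplicit false

namespace Pool.Agent.Helper5.Kato

open PowerSeries Pool.Agent.X308.Iw

variable {p : ℕ} [hp : Fact p.Prime]

/-! ### Multiplicativity -/

theorem card_mul {f u w : Iwasawa p} (h : ∀ x, w ∣ f * x → w ∣ x) :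
    Nat.card (Iwasawa p ⧸ Ideal.span {f * u, w}) =
      Nat.card (Iwasawa p ⧸ Ideal.span {u, w}) * Nat.card (Iwasawa p ⧸ Ideal.span {f, w}) := by
  have hle : Ideal.span {f * u, w} ≤ Ideal.span {f, w} := by
    rw [Ideal.span_le]
    rintro x (rfl | rfl)
    · exact Ideal.mul_mem_right _ _ (Ideal.subset_span (by simp))
    · exact Ideal.subset_span (by simp)
  -- the map `x ↦ f x`
  let F : Iwasawa p →+ Iwasawa p ⧸ Ideal.span {f * u, w} :=
    (Ideal.Quotient.mk (Ideal.span {f * u, w})).toAddMonoidHom.comp (AddMonoidHom.mulLeft f)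
  have hF : ∀ x, F x = Ideal.Quotient.mk (Ideal.span {f * u, w}) (f * x) := fun _ => rfl
  have hker : ∀ x, x ∈ Ideal.span {u, w} ↔ F x = 0 := by
    intro x
    rw [hF, Ideal.Quotient.eq_zero_iff_mem, Ideal.mem_span_pair, Ideal.mem_span_pair]
    constructor
    · rintro ⟨a, b, rfl⟩
      exact ⟨a, f * b, by ring⟩
    · rintro ⟨a, b, hab⟩
      obtain ⟨d, hd⟩ := h (x - u * a) ⟨b, by linear_combination -hab⟩
      exact ⟨a, d, by linear_combination -hd⟩
  let G : Iwasawa p ⧸ Ideal.span {u, w} →+ Iwasawa p ⧸ Ideal.span {f * u, w} :=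
    QuotientAddGroup.lift (Ideal.span {u, w}).toAddSubgroup F (fun x hx => (hker x).1 hx)
  have hG : ∀ x, G (Ideal.Quotient.mk _ x) = F x := fun _ => rfl
  have hGinj : Function.Injective G := by
    rw [injective_iff_map_eq_zero]
    intro y hy
    obtain ⟨x, rfl⟩ := Ideal.Quotient.mk_surjective y
    rw [hG, ← hker] at hy
    exact Ideal.Quotient.eq_zero_iff_mem.2 hy
  let H : Iwasawa p ⧸ Ideal.span {f * u, w} →+ Iwasawa p ⧸ Ideal.span {f, w} :=
    (Ideal.Quotient.factor hle).toAddMonoidHom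
  have hHsurj : Function.Surjective H := Ideal.Quotient.factor_surjective hle
  have hker2 : H.ker = G.range := by
    ext y
    obtain ⟨x, rfl⟩ := Ideal.Quotient.mk_surjective y
    rw [AddMonoidHom.mem_ker, AddMonoidHom.mem_range]
    have e1 : H (Ideal.Quotient.mk _ x) = Ideal.Quotient.mk (Ideal.span {f, w}) x := rfl
    rw [e1, Ideal.Quotient.eq_zero_iff_mem, Ideal.mem_span_pair]
    constructor
    · rintro ⟨a, b, rfl⟩
      refine ⟨Ideal.Quotient.mk _ a, ?_⟩
      rw [hG, hF, Ideal.Quotient.eq, Ideal.mem_span_pair]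
      exact ⟨0, -b, by ring⟩
    · rintro ⟨y, hy⟩
      obtain ⟨a, rfl⟩ := Ideal.Quotient.mk_surjective y
      rw [hG, hF, Ideal.Quotient.eq, Ideal.mem_span_pair] at hy
      obtain ⟨c, d, hcd⟩ := hy
      exact ⟨a - c * u, -d, by linear_combination -hcd⟩
  have h1 := AddSubgroup.card_eq_card_quotient_mul_card_addSubgroup H.ker
  have h2 : Nat.card ((Iwasawa p ⧸ Ideal.span {f * u, w}) ⧸ H.ker) =
      Nat.card (Iwasawa p ⧸ Ideal.span {f, w}) :=
    Nat.card_congr (QuotientAddGroup.quotientKerEquivOfSurjective H hHsurj).toEquiv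
  have h3 : Nat.card H.ker = Nat.card (Iwasawa p ⧸ Ideal.span {u, w}) := by
    rw [hker2]
    exact (Nat.card_congr (AddMonoidHom.ofInjective hGinj).toEquiv).symm
  rw [h1, h2, h3, mul_comm]

theorem finite_of_le {I J : Ideal (Iwasawa p)} (h : J ≤ I) (hJ : Finite (Iwasawa p ⧸ J)) :
    Finite (Iwasawa p ⧸ I) :=
  Finite.of_surjective _ (Ideal.Quotient.factor_surjective h)

theorem span_pair_le {a b c d : Iwasawa p} (h1 : c ∣ a) (h2 : d ∣ b) :
    Ideal.span {a, b} ≤ Ideal.span {c, d} := by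
  rw [Ideal.span_le]
  rintro x (rfl | rfl)
  · exact Ideal.mem_of_dvd _ h1 (Ideal.subset_span (by simp))
  · exact Ideal.mem_of_dvd _ h2 (Ideal.subset_span (by simp))

/-- multiplicativity in the second element -/
theorem card_mul' {u v w : Iwasawa p} (hv : ¬ (p : Iwasawa p) ∣ v)
    (hfin1 : Finite (Iwasawa p ⧸ Ideal.span {u, v})) :
    Nat.card (Iwasawa p ⧸ Ideal.span {u, v * w}) =
      Nat.card (Iwasawa p ⧸ Ideal.span {u, v}) * Nat.card (Iwasawa p ⧸ Ideal.span {u, w}) := by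
  have hv0 : v ≠ 0 := by
    rintro rfl
    exact hv (dvd_zero _)
  have e : ∀ a b : Iwasawa p, Ideal.span {a, b} = Ideal.span {b, a} := fun a b => by
    rw [Set.pair_comm]
  rw [e u (v * w)]
  rw [e u v, e u w]
  have := card_mul (f := v) (u := w) (w := u) (by
    rintro x ⟨y, hy⟩
    obtain ⟨z, rfl⟩ := dvd_of_finite hv hfin1 (x := y) ⟨x, hy.symm⟩
    refine ⟨z, mul_left_cancel₀ hv0 ?_⟩
    rw [hy]
    ring)
  rw [this, mul_comm]

/-! ### The ideal `(p, X ^ 2)` -/

/-- the ideal `(p, X ^ 2)` -/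
noncomputable def J2 (p : ℕ) [Fact p.Prime] : Ideal (Iwasawa p) :=
  Ideal.span {(p : Iwasawa p), X ^ 2}

theorem mem_J2 {g : Iwasawa p} (h : (X : PowerSeries (ZMod p)) ^ 2 ∣ red g) : g ∈ J2 p := by
  obtain ⟨k, hk⟩ := h
  -- lift `k`
  have hsurj : Function.Surjective (red : Iwasawa p → PowerSeries (ZMod p)) := by
    intro y
    have h1 : Function.Surjective (PadicInt.toZMod : ℤ_[p] → ZMod p) := fun z =>
      ⟨(z.val : ℤ_[p]), by simp⟩
    choose s hs using h1
    refine ⟨PowerSeries.mk fun i => s (coeff i y), ?_⟩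
    ext i
    rw [red, coeff_map, coeff_mk, hs]
  obtain ⟨k', rfl⟩ := hsurj k
  have h1 : red (g - X ^ 2 * k') = 0 := by
    rw [map_sub, hk, map_mul, map_pow, red, map_X, sub_self]
  obtain ⟨m, hm⟩ := red_eq_zero_iff.1 h1
  have h2 : g = (p : Iwasawa p) * m + X ^ 2 * k' := by linear_combination hm
  rw [h2]
  exact Ideal.add_mem _ (Ideal.mul_mem_right _ _ (Ideal.subset_span (by simp)))
    (Ideal.mul_mem_right _ _ (Ideal.subset_span (by simp)))

/-- the coefficients `0` and `1` modulo `p` -/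
noncomputable def toPair (p : ℕ) [Fact p.Prime] : Iwasawa p →+ ZMod p × ZMod p where
  toFun g := (coeff 0 (red g), coeff 1 (red g))
  map_zero' := by simp
  map_add' x y := by simp

theorem card_J2 : Nat.card (Iwasawa p ⧸ J2 p) = p ^ 2 := by
  have hker : (J2 p).toAddSubgroup = (toPair p).ker := by
    ext g
    rw [AddMonoidHom.mem_ker]
    constructor
    · intro hg
      have hg' : g ∈ Ideal.span {(p : Iwasawa p), X ^ 2} := hg
      rw [Ideal.mem_span_pair] at hg'
      obtain ⟨a, b, rfl⟩ := hg'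
      have h0 : red ((p : ℕ) : Iwasawa p) = 0 := red_eq_zero_iff.2 dvd_rfl
      have h1 : red (a * (p : Iwasawa p) + b * X ^ 2) = X ^ 2 * red b := by
        rw [map_add, map_mul, map_mul, h0, mul_zero, zero_add, map_pow, mul_comm]
        congr 2
        rw [red, map_X]
      change (coeff 0 (red _), coeff 1 (red _)) = (0, 0)
      rw [h1, coeff_X_pow_mul', coeff_X_pow_mul']
      simp
    · intro hg
      have h1 : (coeff 0 (red g), coeff 1 (red g)) = ((0, 0) : ZMod p × ZMod p) := hg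
      rw [Prod.mk.injEq] at h1
      refine mem_J2 ?_
      rw [X_pow_dvd_iff]
      intro m hm
      interval_cases m
      · exact h1.1
      · exact h1.2
  have hsurj : Function.Surjective (toPair p) := by
    rintro ⟨a, b⟩
    refine ⟨((a.val : ℕ) : Iwasawa p) + ((b.val : ℕ) : Iwasawa p) * X, ?_⟩
    have h1 : red (((a.val : ℕ) : Iwasawa p) + ((b.val : ℕ) : Iwasawa p) * X) =
        C a + C b * X := by
      rw [map_add, map_mul, map_natCast, map_natCast]
      have e1 : ∀ a : ZMod p, ((a.val : ℕ) : PowerSeries (ZMod p)) = C a := by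
        intro a
        rw [← map_natCast (C : ZMod p →+* PowerSeries (ZMod p)), ZMod.natCast_zmod_val]
      rw [e1, e1]
      congr 2
      rw [red, map_X]
    change (coeff 0 (red _), coeff 1 (red _)) = (a, b)
    rw [h1]
    simp [coeff_C]
  have h2 : Nat.card (Iwasawa p ⧸ J2 p) = Nat.card (Iwasawa p ⧸ (toPair p).ker) := by
    rw [← hker]
    rfl
  rw [h2, Nat.card_congr (QuotientAddGroup.quotientKerEquivOfSurjective _ hsurj).toEquiv,
    Nat.card_prod, Nat.card_eq_fintype_card, ZMod.card, sq]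

theorem sq_le {u w : Iwasawa p} (hu : u ∈ J2 p) (hw : w ∈ J2 p)
    [Finite (Iwasawa p ⧸ Ideal.span {u, w})] :
    p ^ 2 ≤ Nat.card (Iwasawa p ⧸ Ideal.span {u, w}) := by
  have hle : Ideal.span {u, w} ≤ J2 p := by
    rw [Ideal.span_le]
    rintro x (rfl | rfl)
    · exact hu
    · exact hw
  rw [← card_J2]
  exact Nat.card_le_card_of_surjective _ (Ideal.Quotient.factor_surjective hle)

/-! ### The quotients of the `omega` -/

/-- the quotient of `omega c (n + 1)` by `omega c n` -/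
noncomputable def xi (p : ℕ) [Fact p.Prime] (c : ℤ_[p]) (n : ℕ) : Iwasawa p :=
  ∑ i ∈ Finset.range p, ((1 + X) ^ (p ^ n)) ^ i * (C c ^ (p ^ n)) ^ (p - 1 - i)

theorem omega_succ (c : ℤ_[p]) (n : ℕ) : omega p c (n + 1) = omega p c n * xi p c n := by
  rw [mul_comm, omega, omega, xi, geom_sum₂_mul, ← pow_mul, ← pow_succ, ← pow_mul, ← pow_succ]

theorem red_omega {c : ℤ_[p]} (hc : (p : ℤ_[p]) ∣ c - 1) (n : ℕ) :
    red (omega p c n) = (X : PowerSeries (ZMod p)) ^ (p ^ n) := by
  have h1 : PadicInt.toZMod c = 1 := by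
    have h2 : c - 1 ∈ RingHom.ker (PadicInt.toZMod : ℤ_[p] →+* ZMod p) := by
      rw [PadicInt.ker_toZMod, PadicInt.maximalIdeal_eq_span_p, Ideal.mem_span_singleton]
      exact hc
    rw [RingHom.mem_ker, map_sub, map_one, sub_eq_zero] at h2
    exact h2
  have hchar : CharP (PowerSeries (ZMod p)) p := by
    refine charP_of_injective_ringHom (f := (C : ZMod p →+* PowerSeries (ZMod p))) ?_ p
    exact C_injective
  rw [omega, map_sub, map_pow, map_add, map_one, map_pow, red, map_X, map_C, h1, map_one,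
    add_pow_char_pow, one_pow, add_sub_cancel_left]

theorem red_xi {c : ℤ_[p]} (hc : (p : ℤ_[p]) ∣ c - 1) (n : ℕ) :
    red (xi p c n) = (X : PowerSeries (ZMod p)) ^ (p ^ n * (p - 1)) := by
  have h1 := congrArg red (omega_succ c n)
  rw [map_mul, red_omega hc, red_omega hc] at h1
  have h2 : p ^ (n + 1) = p ^ n + p ^ n * (p - 1) := by
    have := hp.out.one_lt
    rw [pow_succ]
    nth_rewrite 2 [← mul_one (p ^ n)]
    rw [← mul_add]
    congr 1
    omega
  rw [h2, pow_add] at h1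
  exact (mul_left_cancel₀ (pow_ne_zero _ X_ne_zero) h1).symm

theorem two_le_exp (hp2 : p ≠ 2) (n : ℕ) : 2 ≤ p ^ n * (p - 1) := by
  have h1 := hp.out.two_le
  have h2 : 1 ≤ p ^ n := Nat.one_le_pow _ _ (by omega)
  have h3 : 2 ≤ p - 1 := by omega
  calc 2 = 1 * 2 := rfl
    _ ≤ p ^ n * (p - 1) := Nat.mul_le_mul h2 h3

theorem xi_mem (hp2 : p ≠ 2) {c : ℤ_[p]} (hc : (p : ℤ_[p]) ∣ c - 1) (n : ℕ) : xi p c n ∈ J2 p := by
  refine mem_J2 ?_
  rw [red_xi hc]
  exact pow_dvd_pow _ (two_le_exp hp2 n)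

theorem not_dvd_xi {c : ℤ_[p]} (hc : (p : ℤ_[p]) ∣ c - 1) (n : ℕ) :
    ¬ (p : Iwasawa p) ∣ xi p c n := by
  rw [← red_eq_zero_iff, red_xi hc]
  exact pow_ne_zero _ X_ne_zero

theorem ne_zero_of_not_dvd {w : Iwasawa p} (h : ¬ (p : Iwasawa p) ∣ w) : w ≠ 0 := by
  rintro rfl
  exact h (dvd_zero _)

/-- the lower bound at all levels -/
theorem pow_le (hp2 : p ≠ 2) {u : Iwasawa p} (hu : u ∈ J2 p) {c : ℤ_[p]}
    (hc : (p : ℤ_[p]) ∣ c - 1) (n : ℕ) (hfin : Finite (Iwasawa p ⧸ Ideal.span {u, omega p c n})) :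
    p ^ (2 * n + 1) ≤ Nat.card (Iwasawa p ⧸ Ideal.span {u, omega p c n}) := by
  induction n with
  | zero =>
    have hnu : ¬ IsUnit u := by
      intro h
      have h1 : J2 p ≤ maxIdeal p := by
        rw [J2, Ideal.span_le]
        rintro x (rfl | rfl)
        · exact Ideal.subset_span (by simp)
        · exact Ideal.pow_mem_of_mem _ (Ideal.subset_span (by simp)) 2 (by norm_num)
      exact not_isUnit_of_mem (h1 hu) h
    have hfin' : Finite (Iwasawa p ⧸ Ideal.span {1 * u, omega p c 0}) := by rwa [one_mul]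
    have h1 := gap (f := 1) (not_dvd_omega hc 0) (n := 1) (omega_mem hc 0) hnu hfin'
    rw [one_mul] at h1
    refine le_trans ?_ h1
    rw [mul_zero, zero_add]
    have h2 : 0 < Nat.card (Iwasawa p ⧸ Ideal.span {1, omega p c 0}) := by
      have : Finite (Iwasawa p ⧸ Ideal.span {1, omega p c 0}) :=
        finite_of_le (span_pair_le (one_dvd _) dvd_rfl) hfin
      exact Nat.card_pos
    exact Nat.le_mul_of_pos_right _ h2
  | succ n ih =>
    rw [omega_succ] at hfin ⊢
    have h1 := card_mul' (u := u) (w := xi p c n) (not_dvd_omega hc n)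
      (finite_of_le (span_pair_le dvd_rfl (dvd_mul_right _ _)) hfin)
    rw [h1]
    have h2 := ih (finite_of_le (span_pair_le dvd_rfl (dvd_mul_right _ _)) hfin)
    have : Finite (Iwasawa p ⧸ Ideal.span {u, xi p c n}) :=
      finite_of_le (span_pair_le dvd_rfl (dvd_mul_left _ _)) hfin
    have h3 := sq_le hu (xi_mem hp2 hc n)
    calc p ^ (2 * (n + 1) + 1) = p ^ (2 * n + 1) * p ^ 2 := by ring
      _ ≤ _ := Nat.mul_le_mul h2 h3

end Pool.Agent.Helper5.Kato
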