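import Pool.Agent.Helper5.Kato.Gap

/-!
# The involution of the Iwasawa algebra
-/

set_option autoImplicit false

namespace Pool.Agent.Helper5.Kato

open PowerSeries Pool.Agent.X308.Iw

variable {p : ℕ} [hp : Fact p.Prime]

/-- the power series `(1 + X)⁻¹ - 1` -/
noncomputable def invX (p : ℕ) [Fact p.Prime] : Iwasawa p :=
  PowerSeries.mk fun k => if k = 0 then 0 else (-1) ^ k

/-- the involution `g (X) ↦ g ((1 + X)⁻¹ - 1)` -/
noncomputable def iota (g : Iwasawa p) : Iwasawa p := g.subst (invX p)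

theorem one_add_invX : (1 + X) * (1 + invX p) = 1 := by
  ext k
  rw [add_mul, one_mul, map_add]
  cases k with
  | zero => simp [invX, coeff_zero_eq_constantCoeff]
  | succ k =>
    rw [coeff_succ_X_mul, map_add, map_add]
    simp only [invX, coeff_mk, coeff_one]
    cases k with
    | zero => simp
    | succ k =>
      simp only [Nat.add_eq_zero_iff, one_ne_zero, and_false, if_false, zero_add]
      ring

theorem hasSubst : HasSubst (invX p) := by
  refine HasSubst.of_constantCoeff_zero' ?_
  rw [← coeff_zero_eq_constantCoeff_apply, invX, coeff_mk]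
  simp

theorem iota_add (a b : Iwasawa p) : iota (a + b) = iota a + iota b := subst_add hasSubst a b

theorem iota_sub (a b : Iwasawa p) : iota (a - b) = iota a - iota b := subst_sub hasSubst a b

theorem iota_mul (a b : Iwasawa p) : iota (a * b) = iota a * iota b := subst_mul hasSubst a b

theorem iota_pow (a : Iwasawa p) (n : ℕ) : iota (a ^ n) = iota a ^ n := subst_pow hasSubst a n

theorem iota_X : iota (X : Iwasawa p) = invX p := subst_X hasSubst

theorem iota_C (a : ℤ_[p]) : iota (C a : Iwasawa p) = C a := subst_C a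

/-- the decomposition `g = g(0) + X g'` -/
theorem exists_eq (g : Iwasawa p) : ∃ g' : Iwasawa p, g = C (constantCoeff g) + X * g' := by
  obtain ⟨g', hg'⟩ : (X : Iwasawa p) ∣ g - C (constantCoeff g) := by
    rw [X_dvd_iff]
    simp
  exact ⟨g', by rw [← hg']; ring⟩

theorem constantCoeff_invX : constantCoeff (invX p) = 0 := by
  rw [← coeff_zero_eq_constantCoeff_apply, invX, coeff_mk]
  simp

theorem constantCoeff_iota (g : Iwasawa p) : constantCoeff (iota g) = constantCoeff g := by
  obtain ⟨g', hg'⟩ := exists_eq g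
  nth_rewrite 1 [hg']
  rw [iota_add, iota_C, iota_mul, iota_X, map_add, map_mul, constantCoeff_invX, zero_mul, add_zero]
  simp

theorem coeff_one_mul' (a b : Iwasawa p) :
    coeff 1 (a * b) = constantCoeff a * coeff 1 b + coeff 1 a * constantCoeff b := by
  rw [coeff_mul, Finset.Nat.antidiagonal_succ]
  simp

theorem coeff_one_iota (g : Iwasawa p) : coeff 1 (iota g) = - coeff 1 g := by
  obtain ⟨g', hg'⟩ := exists_eq g
  have h1 : coeff 1 g = constantCoeff g' := by
    nth_rewrite 1 [hg']
    rw [map_add, coeff_one_mul']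
    simp [coeff_C]
  rw [h1]
  nth_rewrite 1 [hg']
  rw [iota_add, iota_C, iota_mul, iota_X, map_add, coeff_one_mul', constantCoeff_invX,
    constantCoeff_iota]
  simp [coeff_C, invX]

/-- `invX` is `X` times a unit with constant term `-1` -/
theorem invX_eq : invX p = X * (-(1 + invX p)) := by
  have := one_add_invX (p := p)
  linear_combination this

theorem constantCoeff_unit_eq_one {u ε : Iwasawa p} (hu0 : u ≠ 0) (hev : Even u.order.toNat)
    (h : iota u = ε * u) : constantCoeff ε = 1 := by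
  obtain ⟨r, hr⟩ : ∃ r, r = u.order.toNat := ⟨_, rfl⟩
  obtain ⟨v, hv⟩ : ∃ v, v = divXPowOrder u := ⟨_, rfl⟩
  have hu : u = X ^ r * v := by
    rw [hr, hv]
    exact (X_pow_order_mul_divXPowOrder).symm
  have hv0 : constantCoeff v ≠ 0 := by
    rw [hv]
    intro h0
    exact hu0 (constantCoeff_divXPowOrder_eq_zero_iff.1 h0)
  rw [← hr] at hev
  rw [hu, iota_mul, iota_pow, iota_X] at h
  have h1 : (X : Iwasawa p) ^ r * ((-(1 + invX p)) ^ r * iota v) = X ^ r * (ε * v) := by
    rw [← mul_assoc, ← mul_pow, ← invX_eq, h]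
    ring
  have h2 := congrArg constantCoeff (mul_left_cancel₀ (pow_ne_zero r X_ne_zero) h1)
  rw [map_mul, map_mul, map_pow, map_neg, map_add, map_one, constantCoeff_invX, add_zero,
    constantCoeff_iota, hev.neg_one_pow, one_mul] at h2
  exact (mul_right_cancel₀ hv0 (by rw [one_mul]; exact h2)).symm

/-- **symmetric elements of even order at `X = 0`** -/
theorem sym_mem (hp2 : p ≠ 2) {u ε : Iwasawa p} (hu0 : u ≠ 0) (hu : ¬ IsUnit u)
    (hev : Even u.order.toNat) (h : iota u = ε * u) : u ∈ J2 p := by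
  have hε := constantCoeff_unit_eq_one hu0 hev h
  have hc : (p : ℤ_[p]) ∣ constantCoeff u := by
    rw [isUnit_iff_constantCoeff] at hu
    have h1 : constantCoeff u ∈ IsLocalRing.maximalIdeal ℤ_[p] := hu
    rwa [PadicInt.maximalIdeal_eq_span_p, Ideal.mem_span_singleton] at h1
  have h1 := congrArg (coeff 1) h
  rw [coeff_one_iota, coeff_one_mul', hε, one_mul] at h1
  have h2 : (p : ℤ_[p]) ∣ 2 * coeff 1 u := by
    have e : 2 * coeff 1 u = -(coeff 1 ε * constantCoeff u) := by linear_combination -h1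
    rw [e]
    exact (dvd_mul_of_dvd_right hc _).neg_right
  have h3 : (p : ℤ_[p]) ∣ coeff 1 u := by
    rcases PadicInt.prime_p.dvd_or_dvd h2 with h4 | h4
    · exfalso
      have h5 : ((2 : ℕ) : ℤ_[p]) ∈ RingHom.ker (PadicInt.toZMod : ℤ_[p] →+* ZMod p) := by
        rw [PadicInt.ker_toZMod, PadicInt.maximalIdeal_eq_span_p, Ideal.mem_span_singleton]
        exact_mod_cast h4
      rw [RingHom.mem_ker, map_natCast, ZMod.natCast_eq_zero_iff] at h5
      have h6 := Nat.le_of_dvd (by norm_num) h5
      have := hp.out.two_le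
      omega
    · exact h4
  have hmod : ∀ a : ℤ_[p], (p : ℤ_[p]) ∣ a → PadicInt.toZMod a = 0 := by
    intro a ha
    rw [← RingHom.mem_ker, PadicInt.ker_toZMod, PadicInt.maximalIdeal_eq_span_p,
      Ideal.mem_span_singleton]
    exact ha
  refine mem_J2 ?_
  rw [X_pow_dvd_iff]
  intro m hm
  interval_cases m
  · rw [red, coeff_map]
    apply hmod
    rwa [coeff_zero_eq_constantCoeff_apply]
  · rw [red, coeff_map]
    exact hmod _ h3

/-! ### An element with the least possible quotients -/

theorem card_max : Nat.card (Iwasawa p ⧸ maxIdeal p) = p := by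
  let F : Iwasawa p →+* ZMod p := (constantCoeff).comp red
  have hF : ∀ g, F g = PadicInt.toZMod (constantCoeff g) := by
    intro g
    change constantCoeff (red g) = _
    rw [← coeff_zero_eq_constantCoeff_apply, red, coeff_map, coeff_zero_eq_constantCoeff_apply]
  have hsurj : Function.Surjective F := by
    intro a
    refine ⟨((a.val : ℕ) : Iwasawa p), ?_⟩
    rw [map_natCast, ZMod.natCast_zmod_val]
  have hker : RingHom.ker F = maxIdeal p := by
    ext g
    rw [RingHom.mem_ker, hF]
    constructor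
    · intro h
      refine mem_maxIdeal ?_
      intro hu
      rw [isUnit_iff_constantCoeff] at hu
      have := hu.map (PadicInt.toZMod : ℤ_[p] →+* ZMod p)
      rw [h] at this
      exact not_isUnit_zero this
    · intro h
      by_contra hne
      apply not_isUnit_of_mem h
      rw [isUnit_iff_constantCoeff]
      by_contra hu
      apply hne
      have h1 : constantCoeff g ∈ IsLocalRing.maximalIdeal ℤ_[p] := hu
      rw [← PadicInt.ker_toZMod] at h1
      exact h1
  rw [← hker, Nat.card_congr (RingHom.quotientKerEquivOfSurjective hsurj).toEquiv,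
    Nat.card_eq_fintype_card, ZMod.card]

/-- the element `X ^ 2 - p (1 + X)` -/
noncomputable def opt (p : ℕ) [Fact p.Prime] : Iwasawa p := X ^ 2 - (p : Iwasawa p) * (1 + X)

theorem iota_opt : iota (opt p) = (1 + invX p) ^ 2 * opt p := by
  have h1 := one_add_invX (p := p)
  have h2 : iota (opt p) = invX p ^ 2 - (p : Iwasawa p) * (1 + invX p) := by
    have e : (p : Iwasawa p) = C (p : ℤ_[p]) := (map_natCast C p).symm
    have e1 : (1 : Iwasawa p) = C (1 : ℤ_[p]) := (map_one C).symm
    rw [opt, iota_sub, iota_mul, iota_add, iota_pow, iota_X, e, e1, iota_C, iota_C]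
  have h3 := invX_eq (p := p)
  rw [h2, opt]
  have h4 : invX p ^ 2 = X ^ 2 * (1 + invX p) ^ 2 := by
    nth_rewrite 1 [h3]
    ring
  rw [h4]
  linear_combination (p : Iwasawa p) * (1 + invX p) * h1

theorem unit_one_add_invX : IsUnit (1 + invX p) :=
  IsUnit.of_mul_eq_one (1 + X) (by rw [mul_comm]; exact one_add_invX)

theorem span_iota_opt : Ideal.span {iota (opt p)} = Ideal.span {opt p} := by
  rw [iota_opt]
  exact Ideal.span_singleton_mul_left_unit (unit_one_add_invX.pow 2) _

theorem opt_mem : opt p ∈ J2 p :=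
  Ideal.sub_mem _ (Ideal.subset_span (by simp)) (Ideal.mul_mem_right _ _ (Ideal.subset_span (by simp)))

theorem constantCoeff_opt : constantCoeff (opt p) = -(p : ℤ_[p]) := by
  simp [opt]

theorem order_opt : (opt p).order = 0 := by
  have h : constantCoeff (opt p) ≠ 0 := by
    rw [constantCoeff_opt, neg_ne_zero]
    exact PadicInt.prime_p.ne_zero
  by_contra hne
  apply h
  exact (order_ne_zero_iff_constCoeff_eq_zero).1 hne

/-- powers of `1 + p d` modulo `p ^ 2` -/
theorem pow_mod (d : ℤ_[p]) (j : ℕ) : ∃ e : ℤ_[p], (1 + p * d) ^ j = 1 + j * (p * d) + p ^ 2 * e := by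
  induction j with
  | zero => exact ⟨0, by simp⟩
  | succ j ih =>
    obtain ⟨e, he⟩ := ih
    refine ⟨j * d ^ 2 + e + e * p * d, ?_⟩
    rw [pow_succ, he]
    push_cast
    ring

theorem sum_mod (hp2 : p ≠ 2) (d : ℤ_[p]) :
    ∃ e : ℤ_[p], ∑ i ∈ Finset.range p, (1 + p * d) ^ (p - 1 - i) = p + p ^ 2 * e := by
  have h1 : ∑ i ∈ Finset.range p, (1 + p * d) ^ (p - 1 - i) =
      ∑ i ∈ Finset.range p, (1 + (p : ℤ_[p]) * d) ^ i :=
    Finset.sum_range_reflect (fun i => (1 + (p : ℤ_[p]) * d) ^ i) p
  rw [h1]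
  choose e he using pow_mod (p := p) d
  obtain ⟨k, hk⟩ : ∃ k, p = 2 * k + 1 := by
    rcases hp.out.eq_two_or_odd' with h | h
    · exact absurd h hp2
    · exact h
  refine ⟨k * d + ∑ i ∈ Finset.range p, e i, ?_⟩
  rw [Finset.sum_congr rfl fun i _ => he i, Finset.sum_add_distrib, Finset.sum_add_distrib,
    ← Finset.mul_sum, ← Finset.sum_mul]
  have h2 : (∑ i ∈ Finset.range p, (i : ℤ_[p])) = k * p := by
    have h3 : ∑ i ∈ Finset.range p, i = k * p := by
      have h4 := Finset.sum_range_id_mul_two p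
      have h5 : p - 1 = 2 * k := by omega
      rw [h5] at h4
      nlinarith
    have h6 := congrArg (Nat.cast : ℕ → ℤ_[p]) h3
    push_cast at h6
    exact h6
  rw [h2, Finset.sum_const, Finset.card_range, nsmul_eq_mul, mul_one]
  ring

theorem max_sq_le : maxIdeal p ^ 2 ≤ Ideal.span {opt p} ⊔ Ideal.span {(p : Iwasawa p)} := by
  have hp' : (p : Iwasawa p) ∈ Ideal.span {opt p} ⊔ Ideal.span {(p : Iwasawa p)} :=
    Ideal.mem_sup_right (Ideal.mem_span_singleton_self _)
  rw [sq, maxIdeal, Ideal.span_mul_span, Ideal.span_le]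
  intro x hx
  obtain ⟨a, ha, b, hb, rfl⟩ := Set.mem_mul.1 hx
  rcases ha with rfl | rfl
  · exact Ideal.mul_mem_right _ _ hp'
  · rcases hb with rfl | rfl
    · exact Ideal.mul_mem_left _ _ hp'
    · have e : (X : Iwasawa p) * X = opt p + (p : Iwasawa p) * (1 + X) := by
        rw [opt]; ring
      rw [e]
      exact Ideal.add_mem _ (Ideal.mem_sup_left (Ideal.mem_span_singleton_self _))
        (Ideal.mul_mem_right _ _ hp')

theorem max_four_le : maxIdeal p ^ 4 ≤
    Ideal.span {opt p} ⊔ Ideal.span {(p : Iwasawa p)} * maxIdeal p := by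
  have e : maxIdeal p ^ 4 = maxIdeal p ^ 2 * maxIdeal p ^ 2 := by rw [← pow_add]
  rw [e]
  refine (Ideal.mul_mono_left max_sq_le).trans ?_
  rw [Ideal.sup_mul]
  refine sup_le_sup Ideal.mul_le_left ?_
  exact Ideal.mul_mono_right (Ideal.pow_le_self (by norm_num))

theorem const_notMem {x : Iwasawa p} (h : x ∈ maxIdeal p) : (p : ℤ_[p]) ∣ constantCoeff x := by
  have h1 := not_isUnit_of_mem h
  rw [isUnit_iff_constantCoeff] at h1
  have h2 : constantCoeff x ∈ IsLocalRing.maximalIdeal ℤ_[p] := h1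
  rwa [PadicInt.maximalIdeal_eq_span_p, Ideal.mem_span_singleton] at h2

theorem isUnit_of_const {x : Iwasawa p} {m : ℕ} (hm : ¬ p ∣ m)
    (h : (p : ℤ_[p]) ∣ constantCoeff x - m) : IsUnit x := by
  rw [isUnit_iff_constantCoeff]
  by_contra hu
  have h2 : constantCoeff x ∈ IsLocalRing.maximalIdeal ℤ_[p] := hu
  rw [PadicInt.maximalIdeal_eq_span_p, Ideal.mem_span_singleton] at h2
  have h3 : (p : ℤ_[p]) ∣ (m : ℤ_[p]) := by
    have := dvd_sub h2 h
    rwa [sub_sub_cancel] at this
  have h5 : (m : ℤ_[p]) ∈ RingHom.ker (PadicInt.toZMod : ℤ_[p] →+* ZMod p) := by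
    rw [PadicInt.ker_toZMod, PadicInt.maximalIdeal_eq_span_p, Ideal.mem_span_singleton]
    exact h3
  rw [RingHom.mem_ker, map_natCast, ZMod.natCast_eq_zero_iff] at h5
  exact hm h5

/-- `p` lies in the ideal of `opt` and `xi` -/
theorem p_mem (hp2 : p ≠ 2) {c : ℤ_[p]} (hc : (p : ℤ_[p]) ∣ c - 1) (n : ℕ) :
    (p : Iwasawa p) ∈ Ideal.span {opt p, xi p c n} := by
  have h2p := hp.out.two_le
  obtain ⟨w, hw⟩ : ∃ w, w = omega p c n := ⟨_, rfl⟩
  have hc1 : (p : ℤ_[p]) ∣ c ^ (p ^ n) - 1 :=
    hc.trans (by simpa using sub_dvd_pow_sub_pow c 1 (p ^ n))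
  obtain ⟨d, hd⟩ := hc1
  have hd' : c ^ (p ^ n) = 1 + p * d := by linear_combination hd
  -- `xi = w ^ (p - 1) + p η`
  obtain ⟨η, hη⟩ : (p : Iwasawa p) ∣ xi p c n - w ^ (p - 1) := by
    rw [← red_eq_zero_iff, map_sub, map_pow, red_xi hc, hw, red_omega hc, ← pow_mul, sub_self]
  have hη0 : (p : ℤ_[p]) ∣ constantCoeff η - 1 := by
    have h1 := congrArg constantCoeff hη
    rw [map_sub, map_mul, map_pow, map_natCast] at h1
    have h2 : constantCoeff w = -(p * d) := by
      rw [hw, omega]
      simp only [map_sub, map_pow, map_add, map_one, constantCoeff_X, add_zero, one_pow,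
        constantCoeff_C]
      rw [hd']
      ring
    have h3 : constantCoeff (xi p c n) = ∑ i ∈ Finset.range p, (1 + p * d) ^ (p - 1 - i) := by
      rw [xi, map_sum]
      refine Finset.sum_congr rfl fun i _ => ?_
      simp only [map_mul, map_pow, map_add, map_one, constantCoeff_X, add_zero, one_pow,
        constantCoeff_C, one_mul]
      rw [hd']
    obtain ⟨e, he⟩ := sum_mod hp2 d
    rw [h2, h3, he] at h1
    obtain ⟨k, hk⟩ : ∃ k, p - 1 = k + 2 := ⟨p - 3, by omega⟩
    have h4 : (-((p : ℤ_[p]) * d)) ^ (p - 1) = (p : ℤ_[p]) * (p * ((-(p * d)) ^ k * d ^ 2)) := by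
      rw [hk, pow_add]
      ring
    rw [h4] at h1
    refine ⟨e - (-(p * d)) ^ k * d ^ 2, ?_⟩
    refine mul_left_cancel₀ PadicInt.prime_p.ne_zero ?_
    linear_combination -h1
  -- `w ^ (p - 1) = opt * a + p * θ`
  obtain ⟨a, θ, hθ, hunit⟩ : ∃ a θ : Iwasawa p, w ^ (p - 1) = opt p * a + p * θ ∧
      IsUnit (η + θ) := by
    by_cases hcase : 4 ≤ (n + 1) * (p - 1)
    · have h1 : w ^ (p - 1) ∈ maxIdeal p ^ 4 := by
        have h2 : w ^ (p - 1) ∈ (maxIdeal p ^ (n + 1)) ^ (p - 1) :=
          Ideal.pow_mem_pow (by rw [hw]; exact omega_mem hc n) _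
        rw [← pow_mul] at h2
        exact Ideal.pow_le_pow_right hcase h2
      obtain ⟨x, hx, y, hy, hxy⟩ := Submodule.mem_sup.1 (max_four_le h1)
      rw [Ideal.mem_span_singleton] at hx
      obtain ⟨a, rfl⟩ := hx
      rw [Ideal.mem_span_singleton_mul] at hy
      obtain ⟨θ, hθ, rfl⟩ := hy
      refine ⟨a, θ, hxy.symm, isUnit_of_const (m := 1) hp.out.not_dvd_one ?_⟩
      rw [map_add, Nat.cast_one]
      have h3 := const_notMem hθ
      have h4 := dvd_add hη0 h3
      have e : constantCoeff η - 1 + constantCoeff θ = constantCoeff η + constantCoeff θ - 1 := by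
        ring
      rwa [e] at h4
    · have hp3 : p = 3 := by
        by_contra hne
        apply hcase
        have h5 : 4 ≤ p - 1 := by
          have h6 : p ≠ 4 := by
            rintro rfl
            exact absurd hp.out (by decide)
          omega
        nlinarith
      have hn0 : n = 0 := by
        by_contra hne
        apply hcase
        have : 1 ≤ n := Nat.one_le_iff_ne_zero.2 hne
        rw [hp3]
        omega
      subst hn0
      have hd2 : c = 1 + p * d := by
        rw [pow_zero, pow_one] at hd'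
        exact hd'
      have hC : C c = 1 + (p : Iwasawa p) * C d := by
        rw [hd2, map_add, map_one, map_mul, map_natCast]
      have hwX : w = X - (p : Iwasawa p) * C d := by
        rw [hw, omega, pow_zero, pow_one, pow_one, hC]
        ring
      refine ⟨1, 1 + X - 2 * C d * X + (p : Iwasawa p) * C d ^ 2, ?_, ?_⟩
      · have h0 : p - 1 = 2 := by omega
        have h1 : w ^ (p - 1) = w ^ 2 := by rw [h0]
        rw [h1, hwX, opt]
        ring
      · refine isUnit_of_const (m := 2) ?_ ?_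
        · intro h8
          have h9 := Nat.le_of_dvd (by norm_num) h8
          omega
        · have h7 : constantCoeff (η + (1 + X - 2 * C d * X + (p : Iwasawa p) * C d ^ 2)) - (2 : ℕ) =
              (constantCoeff η - 1) + p * d ^ 2 := by
            simp only [map_add, map_sub, map_mul, map_pow, map_one, constantCoeff_X,
              constantCoeff_C, map_natCast, mul_zero, add_zero, sub_zero]
            push_cast
            ring
          rw [h7]
          exact dvd_add hη0 (dvd_mul_right _ _)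
  obtain ⟨v, hv⟩ := hunit
  have h1 : (p : Iwasawa p) = ((v⁻¹ : (Iwasawa p)ˣ) : Iwasawa p) * (xi p c n) -
      (((v⁻¹ : (Iwasawa p)ˣ) : Iwasawa p) * a) * opt p := by
    have h2 : xi p c n = opt p * a + p * (v : Iwasawa p) := by
      rw [hv]
      linear_combination hη + hθ
    rw [h2]
    have h3 : ((v⁻¹ : (Iwasawa p)ˣ) : Iwasawa p) * v = 1 := Units.inv_mul v
    linear_combination -(p : Iwasawa p) * h3
  rw [h1]
  exact Ideal.sub_mem _ (Ideal.mul_mem_left _ _ (Ideal.subset_span (by simp)))
    (Ideal.mul_mem_left _ _ (Ideal.subset_span (by simp)))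

theorem span_opt_xi (hp2 : p ≠ 2) {c : ℤ_[p]} (hc : (p : ℤ_[p]) ∣ c - 1) (n : ℕ) :
    Ideal.span {opt p, xi p c n} = J2 p := by
  apply le_antisymm
  · rw [Ideal.span_le]
    rintro x (rfl | rfl)
    · exact opt_mem
    · exact xi_mem hp2 hc n
  · have h1 := p_mem hp2 hc n
    rw [J2, Ideal.span_le]
    rintro x (rfl | rfl)
    · exact h1
    · have e : (X : Iwasawa p) ^ 2 = opt p + (p : Iwasawa p) * (1 + X) := by
        rw [opt]; ring
      rw [SetLike.mem_coe, e]
      exact Ideal.add_mem _ (Ideal.subset_span (by simp)) (Ideal.mul_mem_right _ _ h1)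

theorem span_opt_omega {c : ℤ_[p]} (hc : (p : ℤ_[p]) ∣ c - 1) :
    Ideal.span {opt p, omega p c 0} = maxIdeal p := by
  obtain ⟨d, hd⟩ := hc
  have hC : C c = 1 + (p : Iwasawa p) * C d := by
    have : c = 1 + p * d := by linear_combination hd
    rw [this, map_add, map_one, map_mul, map_natCast]
  have hw : omega p c 0 = X - (p : Iwasawa p) * C d := by
    rw [omega, pow_zero, pow_one, pow_one, hC]
    ring
  rw [hw]
  have hu : IsUnit (1 + (p : Iwasawa p) * C d - (p : Iwasawa p) * C d ^ 2) := by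
    refine isUnit_of_const (m := 1) hp.out.not_dvd_one ?_
    have e : constantCoeff (1 + (p : Iwasawa p) * C d - (p : Iwasawa p) * C d ^ 2) - ((1 : ℕ) : ℤ_[p])
        = p * (d - d ^ 2) := by
      simp only [map_add, map_sub, map_mul, map_pow, map_one, constantCoeff_C, map_natCast]
      push_cast
      ring
    rw [e]
    exact dvd_mul_right _ _
  obtain ⟨v, hv⟩ := hu
  have hp' : (p : Iwasawa p) ∈ Ideal.span {opt p, X - (p : Iwasawa p) * C d} := by
    have h3 : ((v⁻¹ : (Iwasawa p)ˣ) : Iwasawa p) * v = 1 := Units.inv_mul v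
    have h1 : (p : Iwasawa p) = (-((v⁻¹ : (Iwasawa p)ˣ) : Iwasawa p)) * opt p +
        (((v⁻¹ : (Iwasawa p)ˣ) : Iwasawa p) * (X + (p : Iwasawa p) * C d - (p : Iwasawa p))) *
          (X - (p : Iwasawa p) * C d) := by
      rw [opt]
      linear_combination -(p : Iwasawa p) * h3 + (p : Iwasawa p) * ((v⁻¹ : (Iwasawa p)ˣ) : Iwasawa p) * hv
    have h9 : (-((v⁻¹ : (Iwasawa p)ˣ) : Iwasawa p)) * opt p +
        (((v⁻¹ : (Iwasawa p)ˣ) : Iwasawa p) * (X + (p : Iwasawa p) * C d - (p : Iwasawa p))) *
          (X - (p : Iwasawa p) * C d) ∈ Ideal.span {opt p, X - (p : Iwasawa p) * C d} :=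
      Ideal.add_mem _ (Ideal.mul_mem_left _ _ (Ideal.subset_span (by simp)))
        (Ideal.mul_mem_left _ _ (Ideal.subset_span (by simp)))
    rwa [← h1] at h9
  apply le_antisymm
  · rw [Ideal.span_le]
    rintro x (rfl | rfl)
    · have hle : J2 p ≤ maxIdeal p := by
        rw [J2, Ideal.span_le]
        rintro x (rfl | rfl)
        · exact Ideal.subset_span (by simp)
        · exact Ideal.pow_mem_of_mem _ (Ideal.subset_span (by simp)) 2 (by norm_num)
      exact hle opt_mem
    · exact Ideal.sub_mem _ (Ideal.subset_span (by simp))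
        (Ideal.mul_mem_right _ _ (Ideal.subset_span (by simp)))
  · rw [maxIdeal, Ideal.span_le]
    rintro x (rfl | rfl)
    · exact hp'
    · have h9 : (X - (p : Iwasawa p) * C d) + (p : Iwasawa p) * C d ∈
          Ideal.span {opt p, X - (p : Iwasawa p) * C d} :=
        Ideal.add_mem _ (Ideal.subset_span (by simp)) (Ideal.mul_mem_right _ _ hp')
      rwa [sub_add_cancel] at h9

theorem card_opt_xi (hp2 : p ≠ 2) {c : ℤ_[p]} (hc : (p : ℤ_[p]) ∣ c - 1) (n : ℕ) :
    Nat.card (Iwasawa p ⧸ Ideal.span {opt p, xi p c n}) = p ^ 2 := by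
  rw [span_opt_xi hp2 hc, card_J2]

theorem card_opt_omega (hp2 : p ≠ 2) {c : ℤ_[p]} (hc : (p : ℤ_[p]) ∣ c - 1) (n : ℕ) :
    Nat.card (Iwasawa p ⧸ Ideal.span {opt p, omega p c n}) = p ^ (2 * n + 1) := by
  have hp0 : p ≠ 0 := hp.out.ne_zero
  induction n with
  | zero => rw [span_opt_omega hc, card_max, mul_zero, zero_add, pow_one]
  | succ n ih =>
    have hfin : Finite (Iwasawa p ⧸ Ideal.span {opt p, omega p c n}) := by
      refine Nat.finite_of_card_ne_zero ?_
      rw [ih]
      exact pow_ne_zero _ hp0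
    rw [omega_succ, card_mul' (not_dvd_omega hc n) hfin, ih, card_opt_xi hp2 hc]
    ring

end Pool.Agent.Helper5.Kato
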